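import Mathlib

/-!
An analytic degree-type lemma: a `C^1` self-map of a Euclidean space which is the identity
outside a ball cannot have vanishing Jacobian determinant at all preimages of a
neighbourhood of the origin.
-/

namespace Pool.Agent.MP_ec11a7_an.H29

open MeasureTheory Polynomial Metric Set

/-- Interpolation weights: evaluation at `1` of a polynomial of degree at most `d` is a fixed
affine combination of its values at `d + 1` small positive nodes. -/
lemma exists_weights (d : ℕ) (τ : ℝ) (hτ : 0 < τ) :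
    ∃ (v w : Fin (d + 1) → ℝ), (∀ i, 0 < v i ∧ v i < τ) ∧ (∑ i, w i = 1) ∧
      ∀ p : ℝ[X], p.natDegree ≤ d → p.eval 1 = ∑ i, w i * p.eval (v i) := by
  let v : Fin (d + 1) → ℝ := fun i => τ / ((i : ℝ) + 2)
  have hinj : Set.InjOn v (Finset.univ : Finset (Fin (d + 1))) := by
    intro i _ j _ hij
    have h1 : (0 : ℝ) < (i : ℝ) + 2 := by positivity
    have h2 : (0 : ℝ) < (j : ℝ) + 2 := by positivity
    simp only [v] at hij
    rw [div_eq_div_iff h1.ne' h2.ne'] at hij
    have : (i : ℝ) = (j : ℝ) := by
      have := mul_left_cancel₀ hτ.ne' hij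
      linarith
    exact Fin.ext (by exact_mod_cast this)
  refine ⟨v, fun i => (Lagrange.basis Finset.univ v i).eval 1, ?_, ?_, ?_⟩
  · intro i
    have h1 : (0 : ℝ) < (i : ℝ) + 2 := by positivity
    refine ⟨by positivity, ?_⟩
    simp only [v]
    rw [div_lt_iff₀ h1]
    have : (0 : ℝ) ≤ (i : ℝ) := by positivity
    nlinarith
  · rw [← Polynomial.eval_finsetSum, Lagrange.sum_basis hinj Finset.univ_nonempty]
    simp
  · intro p hp
    have hdeg : p.degree < (Finset.univ : Finset (Fin (d + 1))).card := by
      simp only [Finset.card_univ, Fintype.card_fin]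
      exact lt_of_le_of_lt (Polynomial.degree_le_natDegree)
        (by exact_mod_cast Nat.lt_succ_of_le hp)
    have := Lagrange.eq_interpolate hinj hdeg
    conv_lhs => rw [this]
    rw [Lagrange.interpolate_apply, Polynomial.eval_finsetSum]
    refine Finset.sum_congr rfl fun i _ => ?_
    simp [mul_comm]

variable {V : Type*} [NormedAddCommGroup V] [InnerProductSpace ℝ V] [FiniteDimensional ℝ V]

/-- `t ↦ det (1 + t A)` is a polynomial of degree at most the dimension. -/
lemma exists_poly_det (A : V →L[ℝ] V) :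
    ∃ p : ℝ[X], p.natDegree ≤ Module.finrank ℝ V ∧
      ∀ t : ℝ, p.eval t = (ContinuousLinearMap.id ℝ V + t • A).det := by
  classical
  let b := Module.finBasis ℝ V
  let M := LinearMap.toMatrix b b (A : V →ₗ[ℝ] V)
  refine ⟨Matrix.det ((X : ℝ[X]) • M.map C + (1 : Matrix _ _ ℝ).map C), ?_, ?_⟩
  · simpa using Polynomial.natDegree_det_X_add_C_le M 1
  · intro t
    have h1 : (ContinuousLinearMap.id ℝ V + t • A).det = Matrix.det (t • M + 1) := by
      rw [ContinuousLinearMap.det, ← LinearMap.det_toMatrix b]
      congr 1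
      simp [M, add_comm]
    rw [h1, ← Polynomial.coe_evalRingHom, RingHom.map_det]
    congr 1
    ext i j
    simp only [RingHom.mapMatrix_apply, Matrix.map_apply, Matrix.add_apply, Matrix.smul_apply,
      smul_eq_mul, Polynomial.coe_evalRingHom, eval_add, eval_mul, eval_X, eval_C]

omit [FiniteDimensional ℝ V] in
lemma exists_poly_weight (y z : V) (M : ℝ) (N : ℕ) :
    ∃ p : ℝ[X], p.natDegree ≤ 2 * N ∧
      ∀ t : ℝ, p.eval t = (1 - ‖y + t • z‖ ^ 2 / M) ^ N := by
  refine ⟨(C (1 - ‖y‖ ^ 2 / M) - C (2 * inner ℝ y z / M) * X - C (‖z‖ ^ 2 / M) * X ^ 2) ^ N, ?_, ?_⟩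
  · refine (Polynomial.natDegree_pow_le).trans ?_
    rw [mul_comm]
    refine Nat.mul_le_mul_right _ ?_
    compute_degree
  · intro t
    rw [norm_add_sq_real, inner_smul_right, norm_smul]
    simp only [eval_pow, eval_sub, eval_C, eval_mul, eval_X, Real.norm_eq_abs, mul_pow, sq_abs]
    congr 1
    ring

theorem no_degenerate_map (H : V → V) (hH : ContDiff ℝ 1 H) (R₀ : ℝ)
    (hR₀ : ∀ y, R₀ ≤ ‖y‖ → H y = y) (η₀ : ℝ) (hη₀ : 0 < η₀)
    (hdet₀ : ∀ y, ‖H y‖ < η₀ → (fderiv ℝ H y).det = 0) : False := by
  classical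
  borelize V
  let μ : Measure V := Measure.addHaar
  set R := max R₀ 1 with hRdef
  have hRpos : 0 < R := lt_of_lt_of_le one_pos (le_max_right _ _)
  have hR : ∀ y, R ≤ ‖y‖ → H y = y := fun y hy => hR₀ y ((le_max_left _ _).trans hy)
  set η := min η₀ R with hηdef
  have hη : 0 < η := lt_min hη₀ hRpos
  have hηR : η ≤ R := min_le_right _ _
  have hdet : ∀ y, ‖H y‖ < η → (fderiv ℝ H y).det = 0 :=
    fun y hy => hdet₀ y (hy.trans_le (min_le_left _ _))
  set g : V → V := fun y => H y - y with hg
  have hgC : ContDiff ℝ 1 g := hH.sub contDiff_id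
  have hgsupp : HasCompactSupport g := by
    refine HasCompactSupport.intro (isCompact_closedBall (0 : V) R) fun y hy => ?_
    have : R ≤ ‖y‖ := by
      rw [mem_closedBall_zero_iff, not_le] at hy
      exact hy.le
    simp [hg, hR y this]
  obtain ⟨K, hK⟩ := hgC.lipschitzWith_of_hasCompactSupport hgsupp one_ne_zero
  have hgdiff : Differentiable ℝ g := hgC.differentiable one_ne_zero
  have hDK : ∀ y, ‖fderiv ℝ g y‖ ≤ K := fun y => norm_fderiv_le_of_lipschitz ℝ hK
  have hDcont : Continuous (fderiv ℝ g) := hgC.continuous_fderiv one_ne_zero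
  -- positivity of the determinant near the identity
  obtain ⟨ε, hε, hεdet⟩ : ∃ ε > 0, ∀ B : V →L[ℝ] V, ‖B‖ < ε →
      0 < (ContinuousLinearMap.id ℝ V + B).det := by
    have hc : Continuous fun B : V →L[ℝ] V => (ContinuousLinearMap.id ℝ V + B).det :=
      ContinuousLinearMap.continuous_det.comp (continuous_const.add continuous_id)
    have h0 : (0 : ℝ) < (ContinuousLinearMap.id ℝ V + 0).det := by
      simp [ContinuousLinearMap.det]
    have := hc.continuousAt.eventually (lt_mem_nhds h0)
    obtain ⟨ε, hε, h⟩ := Metric.eventually_nhds_iff.1 this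
    exact ⟨ε, hε, fun B hB => h (by simpa using hB)⟩
  set τ : ℝ := min ε 1 / (K + 1) with hτdef
  have hτ : 0 < τ := div_pos (lt_min hε one_pos) (by positivity)
  have hτK : ∀ t : ℝ, 0 < t → t < τ → t * K < min ε 1 := by
    intro t ht htτ
    rw [hτdef, lt_div_iff₀ (by positivity)] at htτ
    nlinarith
  -- the change of variables for small `t`
  have hcov : ∀ (f : V → ℝ) (t : ℝ), 0 < t → t < τ →
      ∫ y in ball (0 : V) R, (ContinuousLinearMap.id ℝ V + t • fderiv ℝ g y).det *
        f (y + t • g y) ∂μ = ∫ y in ball (0 : V) R, f y ∂μ := by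
    intro f t ht htτ
    have htK := hτK t ht htτ
    set Ht : V → V := fun y => y + t • g y with hHt
    have happ : ApproximatesLinearOn Ht
        ((ContinuousLinearEquiv.refl ℝ V : V ≃L[ℝ] V) : V →L[ℝ] V) univ
        (t.toNNReal * K) := by
      intro x _ y _
      have : Ht x - Ht y - ((ContinuousLinearEquiv.refl ℝ V : V ≃L[ℝ] V) : V →L[ℝ] V) (x - y)
          = t • (g x - g y) := by
        simp only [hHt, ContinuousLinearEquiv.coe_refl, ContinuousLinearMap.coe_id', id, smul_sub]
        abel
      rw [this, norm_smul, Real.norm_eq_abs, abs_of_pos ht]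
      have := hK.dist_le_mul x y
      rw [dist_eq_norm, dist_eq_norm] at this
      push_cast
      rw [Real.coe_toNNReal _ ht.le, mul_assoc]
      exact mul_le_mul_of_nonneg_left this ht.le
    have hc : Subsingleton V ∨ (t.toNNReal * K : NNReal) <
        ‖((ContinuousLinearEquiv.refl ℝ V : V ≃L[ℝ] V).symm : V →L[ℝ] V)‖₊⁻¹ := by
      rcases subsingleton_or_nontrivial V with h | h
      · exact Or.inl h
      · right
        have : ‖((ContinuousLinearEquiv.refl ℝ V : V ≃L[ℝ] V).symm : V →L[ℝ] V)‖₊ = 1 := by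
          simp
        rw [this, inv_one, ← NNReal.coe_lt_coe]
        push_cast
        rw [Real.coe_toNNReal _ ht.le]
        exact htK.trans_le (min_le_right _ _)
    have hinj : Function.Injective Ht := by
      have := happ.injOn hc
      exact injOn_univ.1 this
    have hsurj : Function.Surjective Ht := happ.surjective hc
    have hfix : ∀ y, R ≤ ‖y‖ → Ht y = y := by
      intro y hy
      simp [hHt, hg, hR y hy]
    have himage : Ht '' ball (0 : V) R = ball (0 : V) R := by
      ext z
      constructor
      · rintro ⟨y, hy, rfl⟩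
        by_contra hz
        rw [mem_ball_zero_iff, not_lt] at hz
        have := hinj (hfix _ hz)
        rw [this] at hz
        exact absurd (mem_ball_zero_iff.1 hy) (not_lt.2 hz)
      · intro hz
        obtain ⟨y, rfl⟩ := hsurj z
        refine ⟨y, ?_, rfl⟩
        by_contra hy
        rw [mem_ball_zero_iff, not_lt] at hy
        rw [hfix y hy] at hz
        exact absurd (mem_ball_zero_iff.1 hz) (not_lt.2 hy)
    have hder : ∀ y ∈ ball (0 : V) R, HasFDerivWithinAt Ht
        (ContinuousLinearMap.id ℝ V + t • fderiv ℝ g y) (ball (0 : V) R) y := by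
      intro y _
      exact ((hasFDerivAt_id y).add ((hgdiff y).hasFDerivAt.const_smul t)).hasFDerivWithinAt
    have := integral_image_eq_integral_abs_det_fderiv_smul μ measurableSet_ball hder
      hinj.injOn f
    rw [himage] at this
    rw [this]
    refine setIntegral_congr_fun measurableSet_ball fun y _ => ?_
    have hpos : 0 < (ContinuousLinearMap.id ℝ V + t • fderiv ℝ g y).det := by
      apply hεdet
      rw [norm_smul, Real.norm_eq_abs, abs_of_pos ht]
      exact lt_of_le_of_lt (mul_le_mul_of_nonneg_left (hDK y) ht.le)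
        (htK.trans_le (min_le_left _ _))
    simp only [abs_of_pos hpos, smul_eq_mul, hHt]
  -- integrability of continuous functions on the ball
  have hint : ∀ F : V → ℝ, Continuous F → IntegrableOn F (ball (0 : V) R) μ := fun F hF =>
    (hF.continuousOn.integrableOn_compact (isCompact_closedBall (0 : V) R)).mono_set
      ball_subset_closedBall
  -- the identity at `t = 1` for polynomial weights
  have hone : ∀ (M : ℝ) (N : ℕ),
      ∫ y in ball (0 : V) R, (fderiv ℝ H y).det * (1 - ‖H y‖ ^ 2 / M) ^ N ∂μ
        = ∫ y in ball (0 : V) R, (1 - ‖y‖ ^ 2 / M) ^ N ∂μ := by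
    intro M N
    obtain ⟨v, w, hv, hw, hp⟩ := exists_weights (Module.finrank ℝ V + 2 * N) τ hτ
    have hpt : ∀ y, (fderiv ℝ H y).det * (1 - ‖H y‖ ^ 2 / M) ^ N =
        ∑ i, w i * ((ContinuousLinearMap.id ℝ V + v i • fderiv ℝ g y).det *
          (1 - ‖y + v i • g y‖ ^ 2 / M) ^ N) := by
      intro y
      obtain ⟨p, hpd, hpe⟩ := exists_poly_det (fderiv ℝ g y)
      obtain ⟨q, hqd, hqe⟩ := exists_poly_weight y (g y) M N
      have := hp (p * q) (Polynomial.natDegree_mul_le.trans (add_le_add hpd hqd))
      simp only [eval_mul, hpe, hqe] at this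
      rw [← this]
      have h1 : fderiv ℝ H y = ContinuousLinearMap.id ℝ V + (1 : ℝ) • fderiv ℝ g y := by
        have : H = fun y => y + g y := by ext y; simp [hg]
        have h2 : HasFDerivAt H (ContinuousLinearMap.id ℝ V + fderiv ℝ g y) y := by
          rw [this]
          exact (hasFDerivAt_id y).add (hgdiff y).hasFDerivAt
        rw [h2.fderiv, one_smul]
      have h2 : H y = y + (1 : ℝ) • g y := by simp [hg]
      rw [h1, ← h2]
    simp_rw [hpt]
    rw [integral_finsetSum]
    · have : ∀ i, ∫ y in ball (0 : V) R, w i *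
          ((ContinuousLinearMap.id ℝ V + v i • fderiv ℝ g y).det *
          (1 - ‖y + v i • g y‖ ^ 2 / M) ^ N) ∂μ =
          w i * ∫ y in ball (0 : V) R, (1 - ‖y‖ ^ 2 / M) ^ N ∂μ := by
        intro i
        rw [integral_const_mul, hcov (fun y => (1 - ‖y‖ ^ 2 / M) ^ N) (v i) (hv i).1 (hv i).2]
      simp_rw [this]
      rw [← Finset.sum_mul, hw, one_mul]
    · intro i _
      apply hint
      have h1 : Continuous fun y => (ContinuousLinearMap.id ℝ V + v i • fderiv ℝ g y).det :=
        ContinuousLinearMap.continuous_det.comp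
          (continuous_const.add (hDcont.const_smul (v i)))
      have h2 : Continuous g := hgC.continuous
      fun_prop
  -- bounds
  have hHc : Continuous H := hH.continuous
  have hdetc : Continuous fun y => (fderiv ℝ H y).det :=
    ContinuousLinearMap.continuous_det.comp (hH.continuous_fderiv one_ne_zero)
  obtain ⟨C₁, hC₁⟩ := (isCompact_closedBall (0 : V) R).exists_bound_of_continuousOn
    hdetc.continuousOn
  obtain ⟨C₂, hC₂⟩ := (isCompact_closedBall (0 : V) R).exists_bound_of_continuousOn
    hHc.continuousOn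
  have hC₁0 : 0 ≤ C₁ := (norm_nonneg _).trans (hC₁ 0 (mem_closedBall_self hRpos.le))
  have hC₂0 : 0 ≤ C₂ := (norm_nonneg _).trans (hC₂ 0 (mem_closedBall_self hRpos.le))
  set M : ℝ := C₂ ^ 2 + R ^ 2 + 1 with hM
  have hMpos : 0 < M := by positivity
  set a : ℝ := 1 - (η / 2) ^ 2 / M with ha
  set b : ℝ := 1 - η ^ 2 / M with hb
  have hηM : η ^ 2 < M := by nlinarith
  have hb0 : 0 ≤ b := by
    rw [hb, sub_nonneg, div_le_one hMpos]; exact hηM.le
  have hba : b < a := by
    rw [ha, hb]
    have : (η / 2) ^ 2 / M < η ^ 2 / M := by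
      apply div_lt_div_of_pos_right _ hMpos
      nlinarith
    linarith
  have ha0 : 0 < a := hb0.trans_lt hba
  have hμfin : μ (ball (0 : V) R) < ⊤ := measure_ball_lt_top
  have hkey : ∀ N : ℕ, μ.real (ball (0 : V) (η / 2)) * a ^ N ≤
      C₁ * b ^ N * μ.real (ball (0 : V) R) := by
    intro N
    have hup : ‖∫ y in ball (0 : V) R, (fderiv ℝ H y).det * (1 - ‖H y‖ ^ 2 / M) ^ N ∂μ‖ ≤
        C₁ * b ^ N * μ.real (ball (0 : V) R) := by
      apply norm_setIntegral_le_of_norm_le_const hμfin
      intro y hy
      by_cases hyη : ‖H y‖ < η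
      · rw [hdet y hyη]
        simp only [zero_mul, norm_zero]
        positivity
      · rw [not_lt] at hyη
        have hy' := ball_subset_closedBall hy
        have h1 : 0 ≤ 1 - ‖H y‖ ^ 2 / M := by
          rw [sub_nonneg, div_le_one hMpos]
          have := hC₂ y hy'
          have := norm_nonneg (H y)
          nlinarith
        have h2 : 1 - ‖H y‖ ^ 2 / M ≤ b := by
          rw [hb]
          have : η ^ 2 / M ≤ ‖H y‖ ^ 2 / M := by
            apply div_le_div_of_nonneg_right _ hMpos.le
            nlinarith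
          linarith
        rw [norm_mul, norm_pow, Real.norm_eq_abs (1 - _), abs_of_nonneg h1]
        exact mul_le_mul (hC₁ y hy') (pow_le_pow_left₀ h1 h2 N) (by positivity) hC₁0
    have hlow : μ.real (ball (0 : V) (η / 2)) * a ^ N ≤
        ∫ y in ball (0 : V) R, (1 - ‖y‖ ^ 2 / M) ^ N ∂μ := by
      have hsub : ball (0 : V) (η / 2) ⊆ ball (0 : V) R := ball_subset_ball (by linarith)
      have hFc : Continuous fun y : V => (1 - ‖y‖ ^ 2 / M) ^ N := by fun_prop
      calc μ.real (ball (0 : V) (η / 2)) * a ^ N
          = ∫ _ in ball (0 : V) (η / 2), a ^ N ∂μ := by simp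
        _ ≤ ∫ y in ball (0 : V) (η / 2), (1 - ‖y‖ ^ 2 / M) ^ N ∂μ := by
          apply setIntegral_mono_on
          · exact (hint _ continuous_const).mono_set hsub
          · exact (hint _ hFc).mono_set hsub
          · exact measurableSet_ball
          · intro y hy
            apply pow_le_pow_left₀ ha0.le
            rw [ha]
            have hy' := mem_ball_zero_iff.1 hy
            have : ‖y‖ ^ 2 / M ≤ (η / 2) ^ 2 / M := by
              apply div_le_div_of_nonneg_right _ hMpos.le
              have := norm_nonneg y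
              nlinarith
            linarith
        _ ≤ ∫ y in ball (0 : V) R, (1 - ‖y‖ ^ 2 / M) ^ N ∂μ := by
          apply setIntegral_mono_set (hint _ hFc) _ hsub.eventuallyLE
          refine (ae_restrict_iff' measurableSet_ball).2 (Filter.Eventually.of_forall ?_)
          intro y hy
          apply pow_nonneg
          rw [sub_nonneg, div_le_one hMpos]
          have hy' := mem_ball_zero_iff.1 hy
          have := norm_nonneg y
          nlinarith
    rw [hone M N] at hup
    exact hlow.trans ((le_abs_self _).trans hup)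
  have hm : 0 < μ.real (ball (0 : V) (η / 2)) :=
    ENNReal.toReal_pos (measure_ball_pos μ _ (by linarith)).ne' measure_ball_lt_top.ne
  have hlim : Filter.Tendsto (fun N : ℕ => C₁ * (b / a) ^ N * μ.real (ball (0 : V) R))
      Filter.atTop (nhds (C₁ * 0 * μ.real (ball (0 : V) R))) := by
    refine ((tendsto_pow_atTop_nhds_zero_of_lt_one (div_nonneg hb0 ha0.le) ?_).const_mul
      C₁).mul_const _
    rw [div_lt_one ha0]; exact hba
  have hle : μ.real (ball (0 : V) (η / 2)) ≤ C₁ * 0 * μ.real (ball (0 : V) R) := by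
    refine ge_of_tendsto' hlim fun N => ?_
    have haN : 0 < a ^ N := pow_pos ha0 N
    rw [div_pow, ← mul_div_assoc, div_mul_eq_mul_div, le_div_iff₀ haN]
    exact hkey N
  simp at hle
  linarith

end Pool.Agent.MP_ec11a7_an.H29
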