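import Mathlib
import Pool.Agent.MP_ec11a7_an.H29.Degree

/-!
The finite-dimensional case: two subspaces at mutual gap below `3/5`, one of them
finite-dimensional, have the same dimension.
-/

namespace Pool.Agent.MP_ec11a7_an.H29

open Metric Set Filter Topology
open scoped Manifold ContDiff

variable {E : Type*} [NormedAddCommGroup E] [NormedSpace ℝ E]

lemma smooth_select {A B : Type*} [NormedAddCommGroup A] [NormedSpace ℝ A] [FiniteDimensional ℝ A]
    [NormedAddCommGroup B] [NormedSpace ℝ B] (α : A →L[ℝ] E) (β : B →L[ℝ] E)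
    (h : ∀ a, ∃ b, ‖β b - α a‖ ≤ 3 / 5 * ‖α a‖) :
    ∃ f : A → B, ContDiff ℝ 1 f ∧ ∀ a, ‖β (f a) - α a‖ < 3 / 5 * ‖α a‖ + 1 / 200 := by
  let t : A → Set B := fun a => β ⁻¹' ball (α a) (3 / 5 * ‖α a‖ + 1 / 200)
  have ht : ∀ a, Convex ℝ (t a) := fun a => (convex_ball _ _).linear_preimage (β : B →ₗ[ℝ] E)
  have hloc : ∀ a, ∃ b : B, ∀ᶠ a' in 𝓝 a, b ∈ t a' := by
    intro a
    obtain ⟨b, hb⟩ := h a
    refine ⟨b, ?_⟩
    have h1 : Continuous fun a' : A => ‖β b - α a'‖ := by fun_prop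
    have h2 : Continuous fun a' : A => 3 / 5 * ‖α a'‖ + 1 / 200 := by fun_prop
    have := (isOpen_lt h1 h2).mem_nhds (show a ∈ {a' | ‖β b - α a'‖ < 3 / 5 * ‖α a'‖ + 1 / 200}
      from by simp only [mem_ofPred_eq]; linarith)
    filter_upwards [this] with a' ha'
    simpa [t, dist_eq_norm] using ha'
  obtain ⟨g, hg⟩ := exists_contMDiffMap_forall_mem_convex_of_local_const (n := 1) 𝓘(ℝ, A) ht hloc
  refine ⟨g, ?_, fun a => ?_⟩
  · exact g.contMDiff.contDiff
  · simpa [t, dist_eq_norm] using hg a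

lemma not_opposite (x y z : E) (s : ℝ) (hs0 : 0 ≤ s) (hs1 : s ≤ 1) (hy : 1 ≤ ‖y‖)
    (h1 : ‖x - y‖ < 3 / 5 * ‖y‖ + 1 / 200) (h2 : ‖z - x‖ < 3 / 5 * ‖x‖ + 1 / 200) :
    y + s • (z - y) ≠ 0 := by
  intro h
  -- `y = (1 - s) • (y - x) ... `: two convex-combination identities
  have e1 : y = s • (x - z) - s • (x - y) := by
    have : s • (x - z) - s • (x - y) = -(s • (z - y)) := by
      simp only [smul_sub]; abel
    rw [this]
    exact eq_neg_of_add_eq_zero_left h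
  have e2 : x = s • (x - z) + (1 - s) • (x - y) := by
    have : s • (x - z) + (1 - s) • (x - y) = x - (y + s • (z - y)) := by
      simp only [smul_sub, sub_smul, one_smul]; abel
    rw [this, h, sub_zero]
  have n1 : ‖y‖ ≤ s * ‖z - x‖ + s * ‖x - y‖ := by
    calc ‖y‖ = ‖s • (x - z) - s • (x - y)‖ := by rw [← e1]
      _ ≤ ‖s • (x - z)‖ + ‖s • (x - y)‖ := norm_sub_le _ _
      _ = s * ‖z - x‖ + s * ‖x - y‖ := by
        rw [norm_smul, norm_smul, Real.norm_eq_abs, abs_of_nonneg hs0, norm_sub_rev x z]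
  have n2 : ‖x‖ ≤ s * ‖z - x‖ + (1 - s) * ‖x - y‖ := by
    calc ‖x‖ = ‖s • (x - z) + (1 - s) • (x - y)‖ := by rw [← e2]
      _ ≤ ‖s • (x - z)‖ + ‖(1 - s) • (x - y)‖ := norm_add_le _ _
      _ = s * ‖z - x‖ + (1 - s) * ‖x - y‖ := by
        rw [norm_smul, norm_smul, Real.norm_eq_abs, Real.norm_eq_abs, abs_of_nonneg hs0,
          abs_of_nonneg (sub_nonneg.2 hs1), norm_sub_rev x z]
  set a := ‖x‖
  set n := ‖y‖
  set p := ‖z - x‖
  set q := ‖x - y‖
  have ha : 0 ≤ a := norm_nonneg _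
  have hp : 0 ≤ p := norm_nonneg _
  have hq : 0 ≤ q := norm_nonneg _
  -- `a ≤ max p q`
  have h3 : a ≤ 3 / 5 * n + 1 / 200 + 1 / 80 := by
    rcases le_total p q with hpq | hpq
    · have : a ≤ q := by nlinarith
      linarith
    · have : a ≤ p := by nlinarith
      linarith
  have h4 : n ≤ p + q := by nlinarith
  linarith

theorem finrank_le_of_gap (X Y : Submodule ℝ E) [FiniteDimensional ℝ X] [FiniteDimensional ℝ Y]
    (hX : ∀ x ∈ X, ∃ y ∈ Y, ‖y - x‖ ≤ 3 / 5 * ‖x‖)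
    (hY : ∀ y ∈ Y, ∃ x ∈ X, ‖x - y‖ ≤ 3 / 5 * ‖y‖) :
    Module.finrank ℝ Y ≤ Module.finrank ℝ X := by
  by_contra hlt
  rw [not_le] at hlt
  let V := EuclideanSpace ℝ (Fin (Module.finrank ℝ Y))
  have hV : Module.finrank ℝ V = Module.finrank ℝ Y := by simp [V]
  let L : V ≃L[ℝ] Y := ContinuousLinearEquiv.ofFinrankEq hV
  let ι : V →L[ℝ] E := Y.subtypeL.comp (L : V →L[ℝ] Y)
  have hι : ∀ v, ι v = (L v : E) := fun v => rfl
  obtain ⟨φ, hφC, hφ⟩ := smooth_select ι X.subtypeL (fun v => by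
    obtain ⟨x, hx, h⟩ := hY (ι v) (L v).2
    exact ⟨⟨x, hx⟩, h⟩)
  obtain ⟨ψ, hψC, hψ⟩ := smooth_select X.subtypeL ι (fun x => by
    obtain ⟨y, hy, h⟩ := hX x x.2
    refine ⟨L.symm ⟨y, hy⟩, ?_⟩
    simpa [hι] using h)
  set r : ℝ := ‖(L.symm : Y →L[ℝ] V)‖ + 1 with hr
  have hrpos : 0 < r := by positivity
  have hbig : ∀ v : V, r ≤ ‖v‖ → 1 ≤ ‖ι v‖ := by
    intro v hv
    have h1 : ‖v‖ ≤ ‖(L.symm : Y →L[ℝ] V)‖ * ‖L v‖ := by
      have := (L.symm : Y →L[ℝ] V).le_opNorm (L v)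
      simpa using this
    have h2 : ‖ι v‖ = ‖L v‖ := rfl
    rw [h2]
    by_contra hcon
    rw [not_le] at hcon
    have := norm_nonneg (L.symm : Y →L[ℝ] V)
    nlinarith
  let b : ContDiffBump (0 : V) := ⟨r, r + 1, hrpos, by linarith⟩
  let F : V → V := fun v => ψ (φ v)
  have hFC : ContDiff ℝ 1 F := hψC.comp hφC
  let H : V → V := fun v => v + b v • (F v - v)
  have hHC : ContDiff ℝ 1 H := contDiff_id.add (b.contDiff.smul (hFC.sub contDiff_id))
  have hout : ∀ v : V, r + 1 ≤ ‖v‖ → H v = v := by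
    intro v hv
    have : b v = 0 := b.zero_of_le_dist (by simpa using hv)
    simp [H, this]
  have hne : ∀ v : V, r ≤ ‖v‖ → H v ≠ 0 := by
    intro v hv h0
    have := not_opposite (φ v : E) (ι v) (ι (F v)) (b v) b.nonneg b.le_one (hbig v hv)
      (hφ v) (hψ (φ v))
    apply this
    have h1 : ι (H v) = ι v + b v • (ι (F v) - ι v) := by simp [H]
    rw [← h1, h0, map_zero]
  obtain ⟨η, hη, hηH⟩ : ∃ η > 0, ∀ v : V, r ≤ ‖v‖ → η ≤ ‖H v‖ := by
    have hK : IsCompact (closedBall (0 : V) (r + 1) \ ball (0 : V) r) :=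
      (isCompact_closedBall _ _).diff isOpen_ball
    rcases (closedBall (0 : V) (r + 1) \ ball (0 : V) r).eq_empty_or_nonempty with he | hne'
    · refine ⟨r + 1, by linarith, fun v hv => ?_⟩
      by_cases hv' : r + 1 ≤ ‖v‖
      · rw [hout v hv']; exact hv'
      · exfalso
        have : v ∈ closedBall (0 : V) (r + 1) \ ball (0 : V) r := by
          refine ⟨mem_closedBall_zero_iff.2 (not_le.1 hv').le, ?_⟩
          rw [mem_ball_zero_iff, not_lt]; exact hv
        rw [he] at this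
        exact this
    · obtain ⟨v₀, hv₀, hmin⟩ := hK.exists_isMinOn hne' hHC.continuous.norm.continuousOn
      have hv₀r : r ≤ ‖v₀‖ := by
        have := hv₀.2
        rwa [mem_ball_zero_iff, not_lt] at this
      refine ⟨min ‖H v₀‖ (r + 1), lt_min (norm_pos_iff.2 (hne v₀ hv₀r)) (by linarith),
        fun v hv => ?_⟩
      by_cases hv' : r + 1 ≤ ‖v‖
      · rw [hout v hv']; exact (min_le_right _ _).trans hv'
      · have : v ∈ closedBall (0 : V) (r + 1) \ ball (0 : V) r := by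
          refine ⟨mem_closedBall_zero_iff.2 (not_le.1 hv').le, ?_⟩
          rw [mem_ball_zero_iff, not_lt]; exact hv
        exact (min_le_left _ _).trans (hmin this)
  refine no_degenerate_map H hHC (r + 1) hout η hη fun v hv => ?_
  have hvr : ‖v‖ < r := by
    by_contra hcon
    exact absurd (hηH v (not_lt.1 hcon)) (not_le.2 hv)
  have heq : H =ᶠ[𝓝 v] F := by
    filter_upwards [isOpen_ball.mem_nhds (mem_ball_zero_iff.2 hvr)] with w hw
    have : b w = 1 := b.one_of_mem_closedBall (ball_subset_closedBall hw)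
    simp [H, this]
  rw [heq.fderiv_eq]
  have hcomp : fderiv ℝ F v = (fderiv ℝ ψ (φ v)).comp (fderiv ℝ φ v) :=
    fderiv_comp v (hψC.differentiable one_ne_zero _) (hφC.differentiable one_ne_zero _)
  rw [hcomp]
  by_contra hdet
  have hinj : Function.Injective ((fderiv ℝ ψ (φ v)).comp (fderiv ℝ φ v)) :=
    (LinearMap.equivOfDetNeZero _ hdet).injective
  have hinj' : Function.Injective (fderiv ℝ φ v) := Function.Injective.of_comp hinj
  have := LinearMap.finrank_le_finrank_of_injective (f := (fderiv ℝ φ v : V →ₗ[ℝ] X)) hinj'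
  omega

/-- Homogeneous form of a gap bound. -/
lemma exists_near_of_unit (X Y : Submodule ℝ E) (c : ℝ)
    (h : ∀ x ∈ X, ‖x‖ = 1 → ∃ y ∈ Y, ‖y - x‖ ≤ c) :
    ∀ x ∈ X, ∃ y ∈ Y, ‖y - x‖ ≤ c * ‖x‖ := by
  intro x hx
  by_cases h0 : x = 0
  · exact ⟨0, Y.zero_mem, by simp [h0]⟩
  · have hn : 0 < ‖x‖ := norm_pos_iff.2 h0
    obtain ⟨y, hy, hle⟩ := h (‖x‖⁻¹ • x) (X.smul_mem _ hx) (norm_smul_inv_norm (𝕜 := ℝ) h0)
    refine ⟨‖x‖ • y, Y.smul_mem _ hy, ?_⟩
    have : ‖x‖ • y - x = ‖x‖ • (y - ‖x‖⁻¹ • x) := by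
      rw [smul_sub, smul_smul, mul_inv_cancel₀ hn.ne', one_smul]
    rw [this, norm_smul, norm_norm, mul_comm]
    exact mul_le_mul_of_nonneg_right hle hn.le

/-- If `X` is finite-dimensional, so is `Y`, with dimension at most that of `X`. -/
theorem finiteDimensional_of_gap (X Y : Submodule ℝ E) [FiniteDimensional ℝ X]
    (hX : ∀ x ∈ X, ‖x‖ = 1 → ∃ y ∈ Y, ‖y - x‖ < 3 / 5)
    (hY : ∀ y ∈ Y, ‖y‖ = 1 → ∃ x ∈ X, ‖x - y‖ < 3 / 5) :
    FiniteDimensional ℝ Y ∧ Module.finrank ℝ Y ≤ Module.finrank ℝ X := by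
  classical
  -- a finite subset of `Y` approximating the unit sphere of `X`
  obtain ⟨T, hTY, hT⟩ : ∃ T : Finset E, (∀ y ∈ T, y ∈ Y) ∧
      ∀ x ∈ X, ‖x‖ = 1 → ∃ y ∈ T, ‖y - x‖ < 3 / 5 := by
    have hK : IsCompact (sphere (0 : X) 1) := isCompact_sphere _ _
    let U : Y → Set X := fun y => {x | ‖(y : E) - (x : E)‖ < 3 / 5}
    have hU : ∀ y, IsOpen (U y) := fun y => isOpen_lt (by fun_prop) continuous_const
    have hcov : sphere (0 : X) 1 ⊆ ⋃ y, U y := by
      intro x hx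
      obtain ⟨y, hy, h⟩ := hX x x.2 (by simpa using hx)
      exact mem_iUnion.2 ⟨⟨y, hy⟩, h⟩
    obtain ⟨t, ht⟩ := hK.elim_finite_subcover U hU hcov
    refine ⟨t.image (fun y : Y => (y : E)), ?_, ?_⟩
    · intro y hy
      obtain ⟨y', _, rfl⟩ := Finset.mem_image.1 hy
      exact y'.2
    · intro x hx hx1
      have := ht (show (⟨x, hx⟩ : X) ∈ sphere (0 : X) 1 by simpa using hx1)
      simp only [mem_iUnion] at this
      obtain ⟨y, hy, h⟩ := this
      exact ⟨y, Finset.mem_image_of_mem _ hy, h⟩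
  have key : ∀ S : Finset E, (∀ y ∈ S, y ∈ Y) →
      Module.finrank ℝ (Submodule.span ℝ ((S ∪ T : Finset E) : Set E)) ≤ Module.finrank ℝ X := by
    intro S hS
    have hle : Submodule.span ℝ ((S ∪ T : Finset E) : Set E) ≤ Y := by
      rw [Submodule.span_le]
      intro y hy
      rcases Finset.mem_union.1 (Finset.mem_coe.1 hy) with h | h
      · exact hS y h
      · exact hTY y h
    apply finrank_le_of_gap X
    · apply exists_near_of_unit
      intro x hx hx1
      obtain ⟨y, hy, h⟩ := hT x hx hx1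
      exact ⟨y, Submodule.subset_span (Finset.mem_coe.2 (Finset.mem_union_right _ hy)), h.le⟩
    · apply exists_near_of_unit
      intro y hy hy1
      obtain ⟨x, hx, h⟩ := hY y (hle hy) hy1
      exact ⟨x, hx, h.le⟩
  have hrank : Module.rank ℝ Y ≤ (Module.finrank ℝ X : ℕ) := by
    apply rank_le
    intro s hs
    have hs' : LinearIndependent ℝ (fun i : s => ((i : Y) : E)) :=
      hs.map' Y.subtype (Submodule.ker_subtype Y)
    let S : Finset E := s.image (fun y : Y => (y : E))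
    have hS : ∀ y ∈ S, y ∈ Y := by
      intro y hy
      obtain ⟨y', _, rfl⟩ := Finset.mem_image.1 hy
      exact y'.2
    let W := Submodule.span ℝ ((S ∪ T : Finset E) : Set E)
    let f : s → W := fun i => ⟨((i : Y) : E), Submodule.subset_span (Finset.mem_coe.2
      (Finset.mem_union_left _ (Finset.mem_image_of_mem _ i.2)))⟩
    have hf : LinearIndependent ℝ f := LinearIndependent.of_comp W.subtype hs'
    have := hf.fintype_card_le_finrank
    simp only [Fintype.card_coe] at this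
    exact this.trans (key S hS)
  have hfin : FiniteDimensional ℝ Y :=
    Module.rank_lt_aleph0_iff.1 (hrank.trans_lt (Cardinal.natCast_lt_aleph0))
  exact ⟨hfin, Module.finrank_le_of_rank_le hrank⟩

end Pool.Agent.MP_ec11a7_an.H29
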