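import Mathlib
import Pool.Agent.MP_ec11a7_an.H29.FinDim

/-!
The density character: if the mutual gap of two subspaces is below `9/16`, every infinite
cardinal bounding the density character of one of them bounds that of the other.
-/

namespace Pool.Agent.MP_ec11a7_an.H29

open Metric Set Cardinal

universe u

variable {E : Type u} [NormedAddCommGroup E] [NormedSpace ℝ E]

/-- The span of a set of size at most `c` has a dense subset of size at most `c`. -/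
lemma exists_dense_in_span (C : Set E) (c : Cardinal.{u}) (hc : ℵ₀ ≤ c) (hC : #C ≤ c) :
    ∃ T : Set E, T ⊆ Submodule.span ℝ C ∧ #T ≤ c ∧ (Submodule.span ℝ C : Set E) ⊆ closure T := by
  let f : List (ℚ × C) → E := fun l => (l.map fun p => (p.1 : ℝ) • (p.2 : E)).sum
  refine ⟨range f, ?_, ?_, ?_⟩
  · rintro _ ⟨l, rfl⟩
    apply list_sum_mem
    intro x hx
    obtain ⟨p, _, rfl⟩ := List.mem_map.1 hx
    exact Submodule.smul_mem _ _ (Submodule.subset_span p.2.2)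
  · refine mk_range_le.trans ((mk_list_le_max _).trans (max_le hc ?_))
    rw [mk_prod]
    simp only [Cardinal.mkRat, lift_aleph0, lift_uzero]
    exact (mul_le_mul' hc hC).trans (mul_eq_self hc).le
  · intro x hx
    induction hx using Submodule.span_induction with
    | mem x hx => exact subset_closure ⟨[(1, ⟨x, hx⟩)], by simp [f]⟩
    | zero => exact subset_closure ⟨[], by simp [f]⟩
    | add x y _ _ hx hy =>
      refine map_mem_closure₂ (f := fun a b : E => a + b) continuous_add hx hy ?_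
      rintro _ ⟨l, rfl⟩ _ ⟨l', rfl⟩
      exact ⟨l ++ l', by simp [f]⟩
    | smul a x _ hx =>
      have ha : a ∈ closure (range ((↑) : ℚ → ℝ)) := Rat.denseRange_cast a
      refine map_mem_closure₂ (f := fun (a : ℝ) (b : E) => a • b) continuous_smul ha hx ?_
      rintro _ ⟨q, rfl⟩ _ ⟨l, rfl⟩
      refine ⟨l.map fun p => (q * p.1, p.2), ?_⟩
      simp only [f, List.map_map, List.smul_sum]
      congr 1
      apply List.map_congr_left
      intro p _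
      simp [mul_smul]

/-- A norm-one functional vanishing on a subspace and measuring the distance of a point. -/
lemma exists_functional (Z : Submodule ℝ E) (y : E) (r : ℝ) (hr : ∀ z ∈ Z, r ≤ ‖y - z‖) :
    ∃ e : E →ₗ[ℝ] ℝ, (∀ v, ∀ z ∈ Z, e v ≤ ‖v - z‖) ∧ r ≤ e y := by
  obtain ⟨g, hg1, hg2⟩ := exists_dual_vector'' ℝ (Z.mkQ y)
  refine ⟨(g : (E ⧸ Z) →ₗ[ℝ] ℝ).comp Z.mkQ, fun v z hz => ?_, ?_⟩
  · have h1 : Z.mkQ v = Z.mkQ (v - z) := by
      rw [map_sub, Submodule.mkQ_apply Z z, (Submodule.Quotient.mk_eq_zero Z).2 hz, sub_zero]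
    have h2 : ‖Z.mkQ (v - z)‖ ≤ ‖v - z‖ := Submodule.Quotient.norm_mk_le Z (v - z)
    have h3 : ‖g (Z.mkQ v)‖ ≤ ‖g‖ * ‖Z.mkQ v‖ := g.le_opNorm _
    have h4 : g (Z.mkQ v) ≤ ‖g (Z.mkQ v)‖ := Real.le_norm_self _
    have h5 : ‖g‖ * ‖Z.mkQ v‖ ≤ 1 * ‖Z.mkQ v‖ :=
      mul_le_mul_of_nonneg_right hg1 (norm_nonneg _)
    change g (Z.mkQ v) ≤ ‖v - z‖
    rw [← h1] at h2
    linarith
  · change r ≤ g (Z.mkQ y)
    rw [hg2]
    change r ≤ ‖Z.mkQ y‖
    refine le_of_forall_pos_le_add fun δ hδ => ?_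
    obtain ⟨m, hm, hlt⟩ := Submodule.Quotient.norm_mk_lt (Z.mkQ y) hδ
    have hz : y - m ∈ Z := by
      rw [← Submodule.Quotient.eq]
      exact hm.symm
    have := hr (y - m) hz
    rw [sub_sub_cancel] at this
    linarith

/-- The heart of the argument: a subspace `Z` of `Y` whose points mimic the points of `Y`
with respect to distances to two points of `X` is dense in `Y`. -/
lemma subset_closure_of_mimic (X Y Z : Submodule ℝ E) (hZY : Z ≤ Y)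
    (hX : ∀ x ∈ X, ∃ y ∈ Y, ‖y - x‖ ≤ 9 / 16 * ‖x‖)
    (hY : ∀ y ∈ Y, ∃ x ∈ X, ‖x - y‖ ≤ 9 / 16 * ‖y‖)
    (hmim : ∀ x ∈ X, ∀ x' ∈ X, ∀ y ∈ Y, ∀ δ > 0, ∃ z ∈ Z,
      ‖z - x‖ < ‖y - x‖ + δ ∧ ‖z - x'‖ < ‖y - x'‖ + δ) :
    (Y : Set E) ⊆ closure (Z : Set E) := by
  by_contra hcon
  rw [not_subset] at hcon
  obtain ⟨y₁, hy₁Y, hy₁⟩ := hcon
  let F : Submodule ℝ Y := Z.topologicalClosure.comap Y.subtype
  have hFc : IsClosed (F : Set Y) :=
    Z.isClosed_topologicalClosure.preimage continuous_subtype_val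
  obtain ⟨y, -, hy1, hy⟩ := riesz_lemma_of_lt_one (𝕜 := ℝ) hFc ⟨⟨y₁, hy₁Y⟩, hy₁⟩
    (show (999 / 1000 : ℝ) < 1 by norm_num)
  have hyZ : ∀ z ∈ Z, (999 / 1000 : ℝ) ≤ ‖(y : E) - z‖ := fun z hz =>
    hy ⟨z, hZY hz⟩ (Z.le_topologicalClosure hz)
  have hy1' : ‖(y : E)‖ = 1 := hy1
  obtain ⟨e, he, hey⟩ := exists_functional Z (y : E) _ hyZ
  have heX : ∀ x ∈ X, e x ≤ 9 / 16 * ‖x‖ := by
    intro x hx
    refine le_of_forall_pos_le_add fun δ hδ => ?_
    obtain ⟨y', hy', h⟩ := hX x hx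
    obtain ⟨z, hz, h', -⟩ := hmim x hx x hx y' hy' δ hδ
    have := he x z hz
    rw [norm_sub_rev] at this
    linarith
  let h : E → ℝ := fun x => e x - 9 / 16 * ‖(y : E) - x‖
  have hbdd : BddAbove (h '' X) := by
    refine ⟨9 / 16, ?_⟩
    rintro _ ⟨x, hx, rfl⟩
    have h1 := heX x hx
    have h2 : ‖x‖ ≤ ‖(y : E)‖ + ‖(y : E) - x‖ := by
      have := norm_sub_le (y : E) ((y : E) - x)
      rwa [sub_sub_cancel] at this
    simp only [h]
    linarith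
  obtain ⟨_, ⟨x', hx', rfl⟩, hsup⟩ := exists_lt_of_lt_csSup
    (show (h '' X).Nonempty from ⟨_, 0, X.zero_mem, rfl⟩)
    (show sSup (h '' X) - 1 / 1000 < sSup (h '' X) by linarith)
  obtain ⟨x₁, hx₁, hx₁y⟩ := hY y y.2
  obtain ⟨z, hz, hz1, hz2⟩ := hmim x₁ hx₁ x' hx' y y.2 (1 / 1000) (by norm_num)
  have hw : (y : E) - z ∈ Y := Y.sub_mem y.2 (hZY hz)
  obtain ⟨x'', hx'', hx''w⟩ := hY _ hw
  have hwn : ‖(y : E) - z‖ ≤ ‖(y : E) - x₁‖ + ‖z - x₁‖ := by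
    have := norm_sub_le ((y : E) - x₁) (z - x₁)
    rwa [sub_sub_sub_cancel_right] at this
  rw [norm_sub_rev, hy1'] at hx₁y
  have hle : h (x' + x'') ≤ sSup (h '' X) := le_csSup hbdd ⟨_, X.add_mem hx' hx'', rfl⟩
  have htri : ‖(y : E) - (x' + x'')‖ ≤ ‖x'' - ((y : E) - z)‖ + ‖z - x'‖ := by
    have := norm_sub_le (z - x') (x'' - ((y : E) - z))
    have h2 : z - x' - (x'' - ((y : E) - z)) = (y : E) - (x' + x'') := by abel
    rw [h2] at this
    linarith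
  have hey2 : e ((y : E) - x'') ≤ ‖x'' - ((y : E) - z)‖ := by
    have := he ((y : E) - x'') z hz
    have h2 : (y : E) - x'' - z = -(x'' - ((y : E) - z)) := by abel
    rwa [h2, norm_neg] at this
  rw [map_sub] at hey2
  simp only [h, map_add] at hle hsup
  linarith

theorem exists_dense_of_gap (X Y : Submodule ℝ E)
    (hX : ∀ x ∈ X, ∃ y ∈ Y, ‖y - x‖ ≤ 9 / 16 * ‖x‖)
    (hY : ∀ y ∈ Y, ∃ x ∈ X, ‖x - y‖ ≤ 9 / 16 * ‖y‖)
    (D : Set E) (hD : (X : Set E) ⊆ closure D) (c : Cardinal.{u}) (hc : ℵ₀ ≤ c) (hDc : #D ≤ c) :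
    ∃ T : Set E, T ⊆ Y ∧ #T ≤ c ∧ (Y : Set E) ⊆ closure T := by
  have hw : ∀ i : D × D × ℚ × ℚ, ∃ w ∈ Y,
      (∃ y ∈ Y, ‖y - (i.1 : E)‖ < i.2.2.1 ∧ ‖y - (i.2.1 : E)‖ < i.2.2.2) →
        ‖w - (i.1 : E)‖ < i.2.2.1 ∧ ‖w - (i.2.1 : E)‖ < i.2.2.2 := by
    intro i
    by_cases h : ∃ y ∈ Y, ‖y - (i.1 : E)‖ < i.2.2.1 ∧ ‖y - (i.2.1 : E)‖ < i.2.2.2
    · obtain ⟨y, hy, h'⟩ := h
      exact ⟨y, hy, fun _ => h'⟩
    · exact ⟨0, Y.zero_mem, fun h' => absurd h' h⟩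
  choose w hwY hw using hw
  have hZY : Submodule.span ℝ (range w) ≤ Y := by
    rw [Submodule.span_le]
    rintro _ ⟨i, rfl⟩
    exact hwY i
  have hcard : #(range w) ≤ c := by
    refine mk_range_le.trans ?_
    simp only [mk_prod, Cardinal.mkRat, lift_aleph0, lift_uzero, lift_id, aleph0_mul_aleph0]
    calc #D * (#D * ℵ₀) ≤ c * (c * c) := mul_le_mul' hDc (mul_le_mul' hDc hc)
      _ = c := by rw [mul_eq_self hc, mul_eq_self hc]
  obtain ⟨T, hT1, hT2, hT3⟩ := exists_dense_in_span (range w) c hc hcard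
  refine ⟨T, hT1.trans hZY, hT2, ?_⟩
  have := subset_closure_of_mimic X Y _ hZY hX hY (by
    intro x hx x' hx' y hy δ hδ
    obtain ⟨a, ha, hxa⟩ := Metric.mem_closure_iff.1 (hD hx) (δ / 3) (by positivity)
    obtain ⟨a', ha', hxa'⟩ := Metric.mem_closure_iff.1 (hD hx') (δ / 3) (by positivity)
    rw [dist_eq_norm] at hxa hxa'
    obtain ⟨q, hq1, hq2⟩ := exists_rat_btwn (show ‖y - a‖ < ‖y - a‖ + δ / 3 by linarith)
    obtain ⟨q', hq1', hq2'⟩ := exists_rat_btwn (show ‖y - a'‖ < ‖y - a'‖ + δ / 3 by linarith)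
    obtain ⟨h1, h2⟩ := hw (⟨a, ha⟩, ⟨a', ha'⟩, q, q') ⟨y, hy, hq1, hq1'⟩
    refine ⟨w (⟨a, ha⟩, ⟨a', ha'⟩, q, q'), Submodule.subset_span (mem_range_self _), ?_, ?_⟩
    · have t1 := norm_sub_le_norm_sub_add_norm_sub (w (⟨a, ha⟩, ⟨a', ha'⟩, q, q')) a x
      have t2 := norm_sub_le_norm_sub_add_norm_sub y x a
      rw [norm_sub_rev a x] at t1
      simp only at h1
      linarith
    · have t1 := norm_sub_le_norm_sub_add_norm_sub (w (⟨a, ha⟩, ⟨a', ha'⟩, q, q')) a' x'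
      have t2 := norm_sub_le_norm_sub_add_norm_sub y x' a'
      rw [norm_sub_rev a' x'] at t1
      simp only at h2
      linarith)
  exact this.trans (closure_minimal hT3 isClosed_closure)

end Pool.Agent.MP_ec11a7_an.H29
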